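import Pool.Agent.K1H73.ON.Stm

set_option autoImplicit false

/-! Project ON: assembly. -/

namespace Pool.Agent.K1H73.ON

open Finset

theorem R_mono {j k : ℤ} (h : j ≤ k) : R j ⊆ R k := by
  rintro v ⟨h1, h2, h3, h4⟩
  exact ⟨h1, by omega, by omega, by omega⟩

theorem mem_R_a {K : ℕ} {D : Finset V} {a b : V} (h : Set0 K D a b) {k : ℤ} (hk : 1 ≤ k) :
    a ∈ R k := by
  obtain ⟨-, h1, h2, -, -⟩ := h
  refine ⟨by omega, by omega, ?_, ?_⟩ <;> rcases h2 with h2 | h2 <;> omega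

theorem not_mem_R_b {K : ℕ} {D : Finset V} {a b : V} (h : Set0 K D a b) {k : ℤ}
    (hk : k ≤ 3 * K) : b ∉ R k := by
  obtain ⟨-, -, -, -, h5⟩ := h
  rintro ⟨h1, h2, h3, h4⟩
  apply h5
  refine ⟨?_, by omega⟩
  rw [abs_le]
  constructor <;> omega

theorem card_around (c : V) : (around c).card ≤ 6 := by
  unfold around
  refine (Finset.card_insert_le _ _).trans ?_
  refine Nat.succ_le_succ ((Finset.card_insert_le _ _).trans ?_)
  refine Nat.succ_le_succ ((Finset.card_insert_le _ _).trans ?_)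
  refine Nat.succ_le_succ ((Finset.card_insert_le _ _).trans ?_)
  refine Nat.succ_le_succ ((Finset.card_insert_le _ _).trans ?_)
  simp

/-- vertices of the edges of a hexagon -/
theorem mem_hex {c : V} {e : Sym2 V} (he : e ∈ hex c) {v : V} (hv : v ∈ e) :
    ∃ i < 6, v = cor c i := by
  unfold hex at he
  rw [Finset.mem_image] at he
  obtain ⟨i, hi, rfl⟩ := he
  unfold side at hv
  rw [Sym2.mem_iff] at hv
  rcases hv with rfl | rfl
  · exact ⟨i, Finset.mem_range.mp hi, rfl⟩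
  · rw [Finset.mem_range] at hi
    refine ⟨(i + 1) % 6, Nat.mod_lt _ (by norm_num), ?_⟩
    unfold cor
    rw [Nat.mod_mod]

/-- `F` does not see the flips of arcs of the path -/
def Inv2 (D : Finset V) (a b : V) (F : Finset (Sym2 V) → ℂ) : Prop :=
  ∀ ω, IsCfg D a b ω → ∀ c : V, Even (c.1 + c.2) → Flip c ω → IsCfg D a b (symmDiff ω (hex c)) →
    (∃ i < 6, Conn ω a (cor c i)) → F (symmDiff ω (hex c)) = F ω

/-- the main estimate -/
def MAIN2 : Prop := ∀ n x : ℝ, 0 < n → 0 < x → ∃ c : ℝ, 0 < c ∧ c ≤ 1 ∧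
  ∀ (K : ℕ) (D : Finset V) (a b : V), Set0 K D a b → ∀ F : Finset (Sym2 V) → ℂ,
    (∀ ω, ‖F ω‖ ≤ 1) → Inv2 D a b F → ∀ θ : ℝ,
    ‖∑ ω ∈ Cfg D a b, (wt n x a ω : ℂ) * F ω * Complex.exp (θ * len a ω * Complex.I)‖ ≤
      (1 - c * Real.sin θ ^ 2) ^ K * ∑ ω ∈ Cfg D a b, wt n x a ω

theorem t_MAIN2 (hABS : ABS) (hPN : PN) (hEX : EX) (hINV : INV) (hGEO : GEO) (hTG : TG) (hXS : XS)
    (hWT : WT) (hCFG : CFG) (hFL : FL) (hSC : SC) : MAIN2 := by
  classical
  intro n x hn hx0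
  obtain ⟨C, hC1, hC⟩ := hWT n x hn hx0
  have ht : 0 < x ^ 2 := by positivity
  set t : ℝ := x ^ 2 with htdef
  have hq : t / (1 + t) ^ 2 ≤ 1 := by
    rw [div_le_one (by positivity)]
    nlinarith
  refine ⟨t / (1 + t) ^ 2 / (64 * C), by positivity, ?_, ?_⟩
  · rw [div_le_one (by positivity)]
    linarith
  intro K D a b hS F hF hI θ
  -- the modification
  have hex' : ∀ (k : ℤ), 1 ≤ k → k ≤ 3 * K → ∀ ω, IsCfg D a b ω → Exit a ω k (ex a ω k) :=
    fun k h1 h2 ω hω => hEX D a b ω k hω (mem_R_a hS h1) (not_mem_R_b hS h2)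
  have hT : ∀ (j : ℕ) (ω : Finset (Sym2 V)), ∃ T : Finset V, j < K → IsCfg D a b ω →
      T ⊆ around (hx a ω (3 * j + 1)) ∧ (∀ c ∈ T, Even (c.1 + c.2) ∧
      ∀ i < 6, cor c i ∈ D ∧ cor c i ∉ R (3 * j + 1) ∧ cor c i ∈ R (3 * j + 1 + 3) ∧
        cor c i ≠ a ∧ cor c i ≠ b) ∧
      Flip (hx a ω (3 * j + 1)) (symmDiff ω (xs T)) := by
    intro j ω
    by_cases h : j < K ∧ IsCfg D a b ω
    · obtain ⟨T, hT⟩ := hTG K D a b ω (3 * j + 1) hS h.2 (by omega) (by omega)
        (hex' _ (by omega) (by omega) _ h.2)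
      exact ⟨T, fun _ _ => hT⟩
    · exact ⟨∅, fun h1 h2 => absurd ⟨h1, h2⟩ h⟩
  choose T hT using hT
  have hxsR : ∀ (j : ℕ) (ω : Finset (Sym2 V)), j < K → IsCfg D a b ω →
      ∀ e ∈ xs (T j ω), ∀ v ∈ e, v ∉ R (3 * j + 1) := by
    intro j ω hj hω e he v hv
    obtain ⟨c, hc, hec⟩ := (hXS (T j ω)).1 e he
    obtain ⟨i, hi, rfl⟩ := mem_hex hec hv
    exact (((hT j ω hj hω).2.1 c hc).2 i hi).2.1
  have hmdC : ∀ (j : ℕ) (ω : Finset (Sym2 V)), j < K → IsCfg D a b ω →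
      IsCfg D a b (symmDiff ω (xs (T j ω))) := by
    intro j ω hj hω
    refine (hXS (T j ω)).2.2 D a b ω hω ?_
    intro c hc
    have h1 := (hT j ω hj hω).2.1 c hc
    exact ⟨h1.1, fun i hi => ⟨(h1.2 i hi).1, (h1.2 i hi).2.2.2.1, (h1.2 i hi).2.2.2.2⟩⟩
  have hagree : ∀ (ω S : Finset (Sym2 V)) (k : ℤ), (∀ e ∈ S, ∀ v ∈ e, v ∉ R k) →
      ∀ e, (∃ v ∈ e, v ∈ R k) → (e ∈ ω ↔ e ∈ symmDiff ω S) := by
    intro ω S k hS e ⟨v, hv, hvR⟩
    have : e ∉ S := fun h => hS e h v hv hvR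
    rw [Finset.mem_symmDiff]
    tauto
  have hmdX : ∀ (j : ℕ) (ω : Finset (Sym2 V)), j < K → IsCfg D a b ω →
      hx a (symmDiff ω (xs (T j ω))) (3 * j + 1) = hx a ω (3 * j + 1) := by
    intro j ω hj hω
    exact ((hINV a ω (symmDiff ω (xs (T j ω))) (3 * j + 1) (mem_R_a hS (by omega))
      (hagree _ _ _ (hxsR j ω hj hω))).2).symm
  have key := hABS (Finset (Sym2 V)) (Cfg D a b) (wt n x a)
    (fun ω => (wt n x a ω : ℂ) * F ω * Complex.exp (θ * len a ω * Complex.I)) K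
    (fun j ω => Flip (hx a ω (3 * j + 1)) ω)
    (fun j ω => ∃ i < 6, TyB (hx a ω (3 * j + 1)) i ω)
    (fun j ω => symmDiff ω (hex (hx a ω (3 * j + 1))))
    (fun j ω => symmDiff ω (xs (T j ω))) C (Complex.exp (2 * θ * Complex.I)) t ht ?_ hC1 ?_ ?_ ?_ ?_
  · refine key.trans ?_
    have h0 : 0 ≤ ∑ ω ∈ Cfg D a b, wt n x a ω := by
      refine Finset.sum_nonneg fun ω _ => ?_
      unfold wt
      positivity
    refine mul_le_mul_of_nonneg_right ?_ h0
    have h1 := hPN t θ ht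
    have hP0 : 0 ≤ ‖(1 + (t : ℂ) * Complex.exp (2 * θ * Complex.I)) / (1 + (t : ℂ))‖ :=
      norm_nonneg _
    refine pow_le_pow_left₀ ?_ ?_ K
    · have : (1 - ‖(1 + (t : ℂ) * Complex.exp (2 * θ * Complex.I)) / (1 + (t : ℂ))‖) / (64 * C) ≤
          1 := by
        rw [div_le_one (by positivity)]
        linarith
      linarith
    · have h2 : t / (1 + t) ^ 2 / (64 * C) * Real.sin θ ^ 2 =
          (t / (1 + t) ^ 2 * Real.sin θ ^ 2) / (64 * C) := by ring
      rw [h2]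
      have h3 : (t / (1 + t) ^ 2 * Real.sin θ ^ 2) / (64 * C) ≤
          (1 - ‖(1 + (t : ℂ) * Complex.exp (2 * θ * Complex.I)) / (1 + (t : ℂ))‖) / (64 * C) :=
        div_le_div_of_nonneg_right h1 (by positivity)
      linarith
  · have : (2 * (θ : ℂ) * Complex.I) = ((2 * θ : ℝ) : ℂ) * Complex.I := by push_cast; ring
    rw [this, Complex.norm_exp_ofReal_mul_I]
  · intro ω hω
    have hw : 0 ≤ wt n x a ω := by unfold wt; positivity
    refine ⟨hw, ?_⟩
    have : ((θ : ℂ) * (len a ω : ℂ) * Complex.I) = ((θ * len a ω : ℝ) : ℂ) * Complex.I := by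
      push_cast; ring
    rw [norm_mul, norm_mul, this, Complex.norm_exp_ofReal_mul_I, mul_one, Complex.norm_real,
      Real.norm_of_nonneg hw]
    exact mul_le_of_le_one_right hw (hF ω)
  · intro j hj ω hω hfl
    rw [hCFG] at hω
    obtain ⟨f1, f2, f3, f4, f5, f6, f7⟩ := hFL n x K D a b ω (3 * j + 1) hn hx0 hS hω (by omega)
      (by omega) hfl
    have hgeo := hGEO K D a b ω (3 * j + 1) hS hω (by omega) (by omega)
      (hex' _ (by omega) (by omega) _ hω)
    refine ⟨?_, ?_, ?_, ?_, ?_, ?_⟩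
    · rw [hCFG]; exact f1
    · show Flip (hx a (symmDiff ω (hex (hx a ω (3 * j + 1)))) (3 * j + 1)) _
      rw [f2]; exact f3
    · show (∃ i < 6, TyB (hx a (symmDiff ω (hex (hx a ω (3 * j + 1)))) (3 * j + 1)) i _) ↔ _
      rw [f2]; exact f6
    · show symmDiff _ (hex (hx a (symmDiff ω (hex (hx a ω (3 * j + 1)))) (3 * j + 1))) = ω
      rw [f2]; exact f4
    · intro i hi
      obtain ⟨g1, g2⟩ := hSC K D a b ω (hex (hx a ω (3 * j + 1))) (3 * i + 1) (3 * j + 1) hS hω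
        (by omega) (by omega) (by omega) f5 f1
      constructor
      · show Flip (hx a (symmDiff ω _) (3 * i + 1)) _ ↔ Flip (hx a ω (3 * i + 1)) ω
        rw [g1]
        unfold Flip
        exact exists_congr fun l => and_congr_right fun _ => or_congr (g2 l).1 (g2 l).2
      · show (∃ l < 6, TyB (hx a (symmDiff ω _) (3 * i + 1)) l _) ↔ _
        rw [g1]
        exact exists_congr fun l => and_congr_right fun _ => (g2 l).2
    · intro hB
      obtain ⟨e1, e2⟩ := f7 hB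
      show (wt n x a (symmDiff ω _) : ℂ) * F (symmDiff ω _) *
        Complex.exp (θ * len a (symmDiff ω _) * Complex.I) = _
      have hcon : ∃ i < 6, Conn ω a (cor (hx a ω (3 * j + 1)) i) := by
        obtain ⟨-, -, ⟨i, hi, he⟩, -, -, hc⟩ := hgeo
        exact ⟨i, hi, he ▸ hc⟩
      rw [e1, e2, hI ω hω _ hgeo.1 hfl f1 hcon]
      push_cast
      have : (θ : ℂ) * ((len a ω : ℂ) + 2) * Complex.I =
          2 * θ * Complex.I + θ * len a ω * Complex.I := by ring
      rw [this, Complex.exp_add]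
      rw [htdef]
      push_cast
      ring
  · intro j hj ω hω
    rw [hCFG] at hω
    have hm := hmdC j ω hj hω
    refine ⟨by rw [hCFG]; exact hm, ?_, ?_, ?_⟩
    · show Flip (hx a (symmDiff ω (xs (T j ω))) (3 * j + 1)) (symmDiff ω (xs (T j ω)))
      rw [hmdX j ω hj hω]
      exact (hT j ω hj hω).2.2
    · intro i hi
      obtain ⟨g1, g2⟩ := hSC K D a b ω (xs (T j ω)) (3 * i + 1) (3 * j + 1) hS hω
        (by omega) (by omega) (by omega) (hxsR j ω hj hω) hm
      show Flip (hx a (symmDiff ω (xs (T j ω))) (3 * i + 1)) _ ↔ Flip (hx a ω (3 * i + 1)) ω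
      rw [g1]
      unfold Flip
      exact exists_congr fun l => and_congr_right fun _ => or_congr (g2 l).1 (g2 l).2
    · refine hC a ω (xs (T j ω)) ?_
      have h1 := (hXS (T j ω)).2.1
      have h2 := (Finset.card_le_card (hT j ω hj hω).1).trans (card_around _)
      omega
  · intro j hj ω' hω'
    have hsub : (Cfg D a b).filter (fun ω => symmDiff ω (xs (T j ω)) = ω') ⊆
        ((around (hx a ω' (3 * j + 1))).powerset).image (fun S => symmDiff ω' (xs S)) := by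
      intro ω hω
      rw [Finset.mem_filter, hCFG] at hω
      obtain ⟨hω, he⟩ := hω
      rw [Finset.mem_image]
      refine ⟨T j ω, ?_, ?_⟩
      · rw [Finset.mem_powerset, ← he, hmdX j ω hj hω]
        exact (hT j ω hj hω).1
      · rw [← he, symmDiff_assoc, symmDiff_self, symmDiff_bot]
    refine (Finset.card_le_card hsub).trans ?_
    refine Finset.card_image_le.trans ?_
    rw [Finset.card_powerset]
    calc 2 ^ (around (hx a ω' (3 * j + 1))).card ≤ 2 ^ 6 :=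
          Nat.pow_le_pow_right (by norm_num) (card_around _)
      _ = 64 := by norm_num

end Pool.Agent.K1H73.ON
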