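import Pool.Agent.K1H73.ON.Stm

set_option autoImplicit false

/-! Project ON: reachability under a flip. -/

namespace Pool.Agent.K1H73.ON.Rch

open Pool.Agent.K1H73.ON Finset

theorem conn_map {ω W : Finset (Sym2 V)} (f : V → V)
    (h : ∀ x y, s(x, y) ∈ ω → x ≠ y → Conn W (f x) (f y)) {u v : V} (huv : Conn ω u v) :
    Conn W (f u) (f v) := by
  obtain ⟨p⟩ := huv
  induction p with
  | nil => exact SimpleGraph.Reachable.refl _
  | cons hadj _ ih =>
    rw [SimpleGraph.fromEdgeSet_adj] at hadj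
    exact SimpleGraph.Reachable.trans (h _ _ hadj.1 hadj.2) ih

theorem conn_edge {W : Finset (Sym2 V)} {x y : V} (h : s(x, y) ∈ W) : Conn W x y := by
  by_cases hxy : x = y
  · subst hxy
    exact SimpleGraph.Reachable.refl _
  · exact SimpleGraph.Adj.reachable ((SimpleGraph.fromEdgeSet_adj _).2 ⟨h, hxy⟩)

theorem conn_iso {ω : Finset (Sym2 V)} {x v : V} (h : ∀ e ∈ ω, x ∉ e) (hv : Conn ω x v) :
    v = x := by
  obtain ⟨p⟩ := hv
  cases p with
  | nil => rfl
  | cons hadj _ =>
    rw [SimpleGraph.fromEdgeSet_adj] at hadj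
    exact absurd (Sym2.mem_mk_left _ _) (h _ hadj.1)

theorem abs {ω W : Finset (Sym2 V)} (q0 q1 q2 q3 q4 q5 : V)
    (hd : [q0, q1, q2, q3, q4, q5].Nodup)
    (h01 : s(q0, q1) ∈ ω) (h12 : s(q1, q2) ∈ ω)
    (hW : ∀ e, e ∈ W ↔ (e ∈ ω ∧ e ≠ s(q0, q1) ∧ e ≠ s(q1, q2)) ∨ e = s(q2, q3) ∨ e = s(q3, q4) ∨
      e = s(q4, q5) ∨ e = s(q5, q0))
    (h1 : ∀ e ∈ ω, q1 ∈ e → e = s(q0, q1) ∨ e = s(q1, q2)) (h3 : ∀ e ∈ ω, q3 ∉ e)
    (h4 : ∀ e ∈ ω, q4 ∉ e) (h5 : ∀ e ∈ ω, q5 ∉ e) :
    (∀ u v : V, (u ≠ q1 ∧ u ≠ q3 ∧ u ≠ q4 ∧ u ≠ q5) → (v ≠ q1 ∧ v ≠ q3 ∧ v ≠ q4 ∧ v ≠ q5) →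
      (Conn ω u v ↔ Conn W u v)) ∧
    Conn ω q0 q1 ∧ Conn ω q0 q2 ∧
    (∀ v, Conn ω q3 v → v = q3) ∧ (∀ v, Conn ω q4 v → v = q4) ∧ (∀ v, Conn ω q5 v → v = q5) ∧
    (∀ v, Conn W q1 v → v = q1) ∧ Conn W q0 q3 ∧ Conn W q0 q4 ∧ Conn W q0 q5 := by
  have c01 : Conn ω q0 q1 := conn_edge h01
  have c02 : Conn ω q0 q2 := SimpleGraph.Reachable.trans c01 (conn_edge h12)
  have w50 : Conn W q5 q0 := conn_edge ((hW _).2 (Or.inr (Or.inr (Or.inr (Or.inr rfl)))))
  have w45 : Conn W q4 q5 := conn_edge ((hW _).2 (Or.inr (Or.inr (Or.inr (Or.inl rfl)))))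
  have w34 : Conn W q3 q4 := conn_edge ((hW _).2 (Or.inr (Or.inr (Or.inl rfl))))
  have w23 : Conn W q2 q3 := conn_edge ((hW _).2 (Or.inr (Or.inl rfl)))
  have w05 : Conn W q0 q5 := SimpleGraph.Reachable.symm w50
  have w04 : Conn W q0 q4 := SimpleGraph.Reachable.trans w05 (SimpleGraph.Reachable.symm w45)
  have w03 : Conn W q0 q3 := SimpleGraph.Reachable.trans w04 (SimpleGraph.Reachable.symm w34)
  have w02 : Conn W q0 q2 := SimpleGraph.Reachable.trans w03 (SimpleGraph.Reachable.symm w23)
  simp only [List.nodup_cons, List.mem_cons, List.not_mem_nil, or_false, not_or, List.nodup_nil,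
    and_true, not_false_eq_true] at hd
  obtain ⟨⟨d01, d02, d03, d04, d05⟩, ⟨d12, d13, d14, d15⟩, ⟨d23, d24, d25⟩, ⟨d34, d35⟩, d45⟩ := hd
  refine ⟨?_, c01, c02, fun v hv => conn_iso h3 hv, fun v hv => conn_iso h4 hv,
    fun v hv => conn_iso h5 hv, fun v hv => conn_iso ?_ hv, w03, w04, w05⟩
  · intro u v hu hv
    constructor
    · intro huv
      have h := conn_map (W := W) (fun x => if x = q1 then q0 else x) ?_ huv
      · simpa only [if_neg hu.1, if_neg hv.1] using h
      · intro x y hxy hne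
        by_cases e1 : s(x, y) = s(q0, q1)
        · rcases Sym2.eq_iff.1 e1 with ⟨rfl, rfl⟩ | ⟨rfl, rfl⟩
          · simp only [if_true, if_neg d01]
            exact SimpleGraph.Reachable.refl _
          · simp only [if_true, if_neg d01]
            exact SimpleGraph.Reachable.refl _
        · by_cases e2 : s(x, y) = s(q1, q2)
          · rcases Sym2.eq_iff.1 e2 with ⟨rfl, rfl⟩ | ⟨rfl, rfl⟩
            · simp only [if_true, if_neg (Ne.symm d12)]
              exact w02
            · simp only [if_true, if_neg (Ne.symm d12)]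
              exact SimpleGraph.Reachable.symm w02
          · have hx : x ≠ q1 := by
              rintro rfl
              rcases h1 _ hxy (Sym2.mem_mk_left _ _) with h | h
              · exact e1 h
              · exact e2 h
            have hy : y ≠ q1 := by
              rintro rfl
              rcases h1 _ hxy (Sym2.mem_mk_right _ _) with h | h
              · exact e1 h
              · exact e2 h
            simp only [if_neg hx, if_neg hy]
            exact conn_edge ((hW _).2 (Or.inl ⟨hxy, e1, e2⟩))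
    · intro huv
      have h := conn_map (W := ω) (fun x => if x = q3 ∨ x = q4 ∨ x = q5 then q0 else x) ?_ huv
      · have hu' : ¬ (u = q3 ∨ u = q4 ∨ u = q5) := by
          rintro (h | h | h)
          · exact hu.2.1 h
          · exact hu.2.2.1 h
          · exact hu.2.2.2 h
        have hv' : ¬ (v = q3 ∨ v = q4 ∨ v = q5) := by
          rintro (h | h | h)
          · exact hv.2.1 h
          · exact hv.2.2.1 h
          · exact hv.2.2.2 h
        simpa only [if_neg hu', if_neg hv'] using h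
      · intro x y hxy hne
        have t3 : (q3 = q3 ∨ q3 = q4 ∨ q3 = q5) := Or.inl rfl
        have t4 : (q4 = q3 ∨ q4 = q4 ∨ q4 = q5) := Or.inr (Or.inl rfl)
        have t5 : (q5 = q3 ∨ q5 = q4 ∨ q5 = q5) := Or.inr (Or.inr rfl)
        have t0 : ¬ (q0 = q3 ∨ q0 = q4 ∨ q0 = q5) := by
          rintro (h | h | h)
          · exact d03 h
          · exact d04 h
          · exact d05 h
        have t2 : ¬ (q2 = q3 ∨ q2 = q4 ∨ q2 = q5) := by
          rintro (h | h | h)
          · exact d23 h
          · exact d24 h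
          · exact d25 h
        rcases (hW _).1 hxy with ⟨hm, -, -⟩ | e | e | e | e
        · have hx : ¬ (x = q3 ∨ x = q4 ∨ x = q5) := by
            rintro (rfl | rfl | rfl)
            · exact h3 _ hm (Sym2.mem_mk_left _ _)
            · exact h4 _ hm (Sym2.mem_mk_left _ _)
            · exact h5 _ hm (Sym2.mem_mk_left _ _)
          have hy : ¬ (y = q3 ∨ y = q4 ∨ y = q5) := by
            rintro (rfl | rfl | rfl)
            · exact h3 _ hm (Sym2.mem_mk_right _ _)
            · exact h4 _ hm (Sym2.mem_mk_right _ _)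
            · exact h5 _ hm (Sym2.mem_mk_right _ _)
          simp only [if_neg hx, if_neg hy]
          exact conn_edge hm
        · rcases Sym2.eq_iff.1 e with ⟨rfl, rfl⟩ | ⟨rfl, rfl⟩
          · beta_reduce
            rw [if_neg t2, if_pos t3]
            exact SimpleGraph.Reachable.symm c02
          · beta_reduce
            rw [if_pos t3, if_neg t2]
            exact c02
        · rcases Sym2.eq_iff.1 e with ⟨rfl, rfl⟩ | ⟨rfl, rfl⟩
          · beta_reduce
            rw [if_pos t3, if_pos t4]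
            exact SimpleGraph.Reachable.refl _
          · beta_reduce
            rw [if_pos t4, if_pos t3]
            exact SimpleGraph.Reachable.refl _
        · rcases Sym2.eq_iff.1 e with ⟨rfl, rfl⟩ | ⟨rfl, rfl⟩
          · beta_reduce
            rw [if_pos t4, if_pos t5]
            exact SimpleGraph.Reachable.refl _
          · beta_reduce
            rw [if_pos t5, if_pos t4]
            exact SimpleGraph.Reachable.refl _
        · rcases Sym2.eq_iff.1 e with ⟨rfl, rfl⟩ | ⟨rfl, rfl⟩
          · beta_reduce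
            rw [if_pos t5, if_neg t0]
            exact SimpleGraph.Reachable.refl _
          · beta_reduce
            rw [if_neg t0, if_pos t5]
            exact SimpleGraph.Reachable.refl _
  · intro e he hq
    rcases (hW _).1 he with ⟨hm, e1, e2⟩ | e | e | e | e
    · rcases h1 _ hm hq with h | h
      · exact e1 h
      · exact e2 h
    · rw [e, Sym2.mem_iff] at hq
      rcases hq with h | h
      · exact d12 h
      · exact d13 h
    · rw [e, Sym2.mem_iff] at hq
      rcases hq with h | h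
      · exact d13 h
      · exact d14 h
    · rw [e, Sym2.mem_iff] at hq
      rcases hq with h | h
      · exact d14 h
      · exact d15 h
    · rw [e, Sym2.mem_iff] at hq
      rcases hq with h | h
      · exact d15 h
      · exact d01 h.symm

theorem cor_mod (c : V) {j j' : ℕ} (h : j % 6 = j' % 6) : cor c j = cor c j' := by
  unfold cor
  rw [h]

theorem side_mod (c : V) {j j' : ℕ} (h : j % 6 = j' % 6) : side c j = side c j' := by
  unfold side
  rw [cor_mod c h, cor_mod c (show (j + 1) % 6 = (j' + 1) % 6 by omega)]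

theorem cor_inj (c : V) {j j' : ℕ} (h : cor c j = cor c j') : j % 6 = j' % 6 := by
  unfold cor at h
  have h1 := Nat.mod_lt j (show 6 > 0 by norm_num)
  have h2 := Nat.mod_lt j' (show 6 > 0 by norm_num)
  generalize j % 6 = a at *
  generalize j' % 6 = b at *
  have h3 := congrArg Prod.fst h
  have h4 := congrArg Prod.snd h
  interval_cases a <;> interval_cases b <;>
    first
    | rfl
    | (exfalso; omega)
    | (exfalso; simp at h3; done)
    | (exfalso; simp at h4; done)
    | (exfalso; simp at h3; omega)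
    | (exfalso; simp at h4; omega)

theorem mem_hex (c : V) (i : ℕ) (hi : i < 6) (e : Sym2 V) : e ∈ hex c ↔ ∃ k < 6, e = side c (i + k) := by
  unfold hex
  rw [Finset.mem_image]
  constructor
  · rintro ⟨j, hj, rfl⟩
    rw [Finset.mem_range] at hj
    exact ⟨(j + 6 - i) % 6, by omega, side_mod c (by omega)⟩
  · rintro ⟨k, hk, rfl⟩
    exact ⟨(i + k) % 6, Finset.mem_range.2 (by omega), side_mod c (by omega)⟩

theorem deg_zero {ω : Finset (Sym2 V)} {v : V} (h : deg ω v = 0) : ∀ e ∈ ω, v ∉ e := by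
  classical
  unfold deg at h
  rw [Finset.card_eq_zero, Finset.filter_eq_empty_iff] at h
  intro e he hv
  exact h he hv

theorem deg_two {ω : Finset (Sym2 V)} {v : V} (h : deg ω v = 2) (e1 e2 : Sym2 V) (hne : e1 ≠ e2)
    (h1 : e1 ∈ ω) (h2 : e2 ∈ ω) (hv1 : v ∈ e1) (hv2 : v ∈ e2) :
    ∀ e ∈ ω, v ∈ e → e = e1 ∨ e = e2 := by
  classical
  unfold deg at h
  intro e he hv
  have hs : ({e1, e2} : Finset (Sym2 V)) ⊆ ω.filter (fun e => v ∈ e) := by
    intro x hx
    rw [Finset.mem_insert, Finset.mem_singleton] at hx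
    rw [Finset.mem_filter]
    rcases hx with rfl | rfl
    · exact ⟨h1, hv1⟩
    · exact ⟨h2, hv2⟩
  have hc : (ω.filter (fun e => v ∈ e)).card ≤ ({e1, e2} : Finset (Sym2 V)).card := by
    rw [Finset.card_pair hne]
    exact le_of_eq (by convert h)
  have heq := Finset.eq_of_subset_of_card_le hs hc
  have hm : e ∈ ({e1, e2} : Finset (Sym2 V)) := by
    rw [heq, Finset.mem_filter]
    exact ⟨he, hv⟩
  rwa [Finset.mem_insert, Finset.mem_singleton] at hm

theorem t_RCH : RCH := by
  intro ω c i hi _ _ hT h1 h3 h4 h5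
  have hne : ∀ j k, j < 6 → k < 6 → j ≠ k → cor c (i + j) ≠ cor c (i + k) := by
    intro j k hj hk hjk h
    have := cor_inj c h
    omega
  have hd : [cor c i, cor c (i + 1), cor c (i + 2), cor c (i + 3), cor c (i + 4),
      cor c (i + 5)].Nodup := by
    simp only [List.nodup_cons, List.mem_cons, List.not_mem_nil, or_false, not_or, List.nodup_nil,
      and_true, not_false_eq_true]
    exact ⟨⟨hne 0 1 (by norm_num) (by norm_num) (by norm_num),
      hne 0 2 (by norm_num) (by norm_num) (by norm_num),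
      hne 0 3 (by norm_num) (by norm_num) (by norm_num),
      hne 0 4 (by norm_num) (by norm_num) (by norm_num),
      hne 0 5 (by norm_num) (by norm_num) (by norm_num)⟩,
      ⟨hne 1 2 (by norm_num) (by norm_num) (by norm_num),
      hne 1 3 (by norm_num) (by norm_num) (by norm_num),
      hne 1 4 (by norm_num) (by norm_num) (by norm_num),
      hne 1 5 (by norm_num) (by norm_num) (by norm_num)⟩,
      ⟨hne 2 3 (by norm_num) (by norm_num) (by norm_num),
      hne 2 4 (by norm_num) (by norm_num) (by norm_num),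
      hne 2 5 (by norm_num) (by norm_num) (by norm_num)⟩,
      ⟨hne 3 4 (by norm_num) (by norm_num) (by norm_num),
      hne 3 5 (by norm_num) (by norm_num) (by norm_num)⟩,
      hne 4 5 (by norm_num) (by norm_num) (by norm_num)⟩
  have s0 : side c i = s(cor c i, cor c (i + 1)) := rfl
  have s1 : side c (i + 1) = s(cor c (i + 1), cor c (i + 2)) := rfl
  have s2 : side c (i + 2) = s(cor c (i + 2), cor c (i + 3)) := rfl
  have s3 : side c (i + 3) = s(cor c (i + 3), cor c (i + 4)) := rfl
  have s4 : side c (i + 4) = s(cor c (i + 4), cor c (i + 5)) := rfl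
  have s5 : side c (i + 5) = s(cor c (i + 5), cor c i) := by
    unfold side
    rw [cor_mod c (show (i + 5 + 1) % 6 = i % 6 by omega)]
  have hex6 : ∀ e, e ∈ hex c ↔ e = side c i ∨ e = side c (i + 1) ∨ e = side c (i + 2) ∨
      e = side c (i + 3) ∨ e = side c (i + 4) ∨ e = side c (i + 5) := by
    intro e
    rw [mem_hex c i hi]
    constructor
    · rintro ⟨k, hk, rfl⟩
      interval_cases k <;> simp
    · rintro (h | h | h | h | h | h)
      · exact ⟨0, by norm_num, h⟩
      · exact ⟨1, by norm_num, h⟩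
      · exact ⟨2, by norm_num, h⟩
      · exact ⟨3, by norm_num, h⟩
      · exact ⟨4, by norm_num, h⟩
      · exact ⟨5, by norm_num, h⟩
  have hTm : ∀ e, (e ∈ ω ∧ e ∈ hex c) ↔ (e = side c i ∨ e = side c (i + 1)) := by
    intro e
    unfold TyA at hT
    rw [← Finset.mem_inter, hT, Finset.mem_insert, Finset.mem_singleton]
  have m0 : side c i ∈ ω := ((hTm _).2 (Or.inl rfl)).1
  have m1 : side c (i + 1) ∈ ω := ((hTm _).2 (Or.inr rfl)).1
  have z3 := deg_zero h3
  have z4 := deg_zero h4
  have z5 := deg_zero h5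
  have x2 : side c (i + 2) ∉ ω := fun h => z3 _ h (by rw [s2]; exact Sym2.mem_mk_right _ _)
  have x3 : side c (i + 3) ∉ ω := fun h => z3 _ h (by rw [s3]; exact Sym2.mem_mk_left _ _)
  have x4 : side c (i + 4) ∉ ω := fun h => z4 _ h (by rw [s4]; exact Sym2.mem_mk_left _ _)
  have x5 : side c (i + 5) ∉ ω := fun h => z5 _ h (by rw [s5]; exact Sym2.mem_mk_left _ _)
  have hne01 : side c i ≠ side c (i + 1) := by
    rw [s0, s1]
    intro h
    rcases Sym2.eq_iff.1 h with ⟨h, -⟩ | ⟨h, -⟩
    · exact hne 0 1 (by norm_num) (by norm_num) (by norm_num) h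
    · exact hne 0 2 (by norm_num) (by norm_num) (by norm_num) h
  have z1 := deg_two h1 (side c i) (side c (i + 1)) hne01 m0 m1
    (by rw [s0]; exact Sym2.mem_mk_right _ _) (by rw [s1]; exact Sym2.mem_mk_left _ _)
  refine abs (cor c i) (cor c (i + 1)) (cor c (i + 2)) (cor c (i + 3)) (cor c (i + 4))
    (cor c (i + 5)) hd m0 m1 ?_ z1 z3 z4 z5
  intro e
  rw [← s0, ← s1, ← s2, ← s3, ← s4, ← s5, Finset.mem_symmDiff]
  constructor
  · rintro (⟨h, hn⟩ | ⟨h, hn⟩)
    · refine Or.inl ⟨h, ?_, ?_⟩
      · rintro rfl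
        exact hn ((hex6 _).2 (Or.inl rfl))
      · rintro rfl
        exact hn ((hex6 _).2 (Or.inr (Or.inl rfl)))
    · rcases (hex6 _).1 h with h | h | h
      · exact absurd (h ▸ m0) hn
      · exact absurd (h ▸ m1) hn
      · exact Or.inr h
  · rintro (⟨h, hn0, hn1⟩ | h)
    · refine Or.inl ⟨h, fun hh => ?_⟩
      rcases (hTm e).1 ⟨h, hh⟩ with h | h
      · exact hn0 h
      · exact hn1 h
    · refine Or.inr ⟨(hex6 _).2 (Or.inr (Or.inr h)), ?_⟩
      rcases h with rfl | rfl | rfl | rfl
      · exact x2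
      · exact x3
      · exact x4
      · exact x5

end Pool.Agent.K1H73.ON.Rch
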