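import Mathlib

set_option autoImplicit false

/-! Project ON: the O(n) model on the honeycomb lattice, all n > 0, x > 0. Definitions and pieces. -/

namespace Pool.Agent.K1H73.ON

open Finset

abbrev V := ℤ × ℤ

/-- honeycomb adjacency in brick-wall coordinates -/
def Nbr (p q : V) : Prop :=
  q - p = (1, 0) ∨ q - p = (-1, 0) ∨ (q - p = (0, 1) ∧ Even (p.1 + p.2)) ∨
    (q - p = (0, -1) ∧ Even (q.1 + q.2))

/-- number of edges of `ω` at `v` -/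
noncomputable def deg (ω : Finset (Sym2 V)) (v : V) : ℕ := by
  classical exact (ω.filter (fun e => v ∈ e)).card

/-- `u` and `v` are connected by edges of `ω` -/
def Conn (ω : Finset (Sym2 V)) (u v : V) : Prop :=
  (SimpleGraph.fromEdgeSet (ω : Set (Sym2 V))).Reachable u v

/-- the configurations of the O(n) model in `D` with path from `a` to `b` -/
def IsCfg (D : Finset V) (a b : V) (ω : Finset (Sym2 V)) : Prop :=
  (∀ e ∈ ω, ∃ p q, e = s(p, q) ∧ Nbr p q ∧ p ∈ D ∧ q ∈ D) ∧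
  (deg ω a = 1 ∧ deg ω b = 1) ∧ ∀ v, v ≠ a → v ≠ b → deg ω v = 0 ∨ deg ω v = 2

/-- the number of loops: components with an edge, not containing `a` -/
noncomputable def loops (a : V) (ω : Finset (Sym2 V)) : ℕ :=
  Set.ncard {C : Set V | ∃ v, (∃ e ∈ ω, v ∈ e) ∧ ¬ Conn ω a v ∧ C = {u | Conn ω v u}}

/-- the number of edges of the path from `a` -/
noncomputable def len (a : V) (ω : Finset (Sym2 V)) : ℕ := by
  classical exact (ω.filter (fun e => ∃ v ∈ e, Conn ω a v)).card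

/-- the weight -/
noncomputable def wt (n x : ℝ) (a : V) (ω : Finset (Sym2 V)) : ℝ := x ^ ω.card * n ^ loops a ω

/-- corner number `i` of the hexagon at `c` (`c.1 + c.2` even) -/
def cor (c : V) (i : ℕ) : V :=
  match i % 6 with
  | 0 => (c.1, c.2)
  | 1 => (c.1 + 1, c.2)
  | 2 => (c.1 + 2, c.2)
  | 3 => (c.1 + 2, c.2 + 1)
  | 4 => (c.1 + 1, c.2 + 1)
  | _ => (c.1, c.2 + 1)

/-- side number `i` of the hexagon at `c` -/
def side (c : V) (i : ℕ) : Sym2 V := s(cor c i, cor c (i + 1))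

/-- the hexagon at `c` -/
def hex (c : V) : Finset (Sym2 V) := (Finset.range 6).image (side c)

/-- `ω` meets the hexagon at `c` in the arc of two sides from corner `i` to corner `i + 2` -/
def TyA (c : V) (i : ℕ) (ω : Finset (Sym2 V)) : Prop := ω ∩ hex c = {side c i, side c (i + 1)}

/-- `ω` meets the hexagon in the arc of four sides with the same ends -/
def TyB (c : V) (i : ℕ) (ω : Finset (Sym2 V)) : Prop :=
  ω ∩ hex c = {side c (i + 2), side c (i + 3), side c (i + 4), side c (i + 5)}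

/-- an arc of two or four sides -/
def Flip (c : V) (ω : Finset (Sym2 V)) : Prop := ∃ i < 6, TyA c i ω ∨ TyB c i ω

/-- the regions -/
def R (k : ℤ) : Set V := {v | 0 ≤ v.2 ∧ v.2 < k ∧ v.1 + v.2 < 2 * k ∧ v.2 - v.1 < 2 * k}

/-- the path leaves `R k` for the first time through `(u, s)` -/
def Exit (a : V) (ω : Finset (Sym2 V)) (k : ℤ) (p : V × V) : Prop :=
  p.1 ∈ R k ∧ p.2 ∉ R k ∧ s(p.1, p.2) ∈ ω ∧
    ∃ ω' ⊆ ω, (∀ e ∈ ω', ∀ v ∈ e, v ∈ R k) ∧ Conn ω' a p.1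

noncomputable def ex (a : V) (ω : Finset (Sym2 V)) (k : ℤ) : V × V :=
  Classical.epsilon (Exit a ω k)

/-- the hexagon behind the exit -/
def crn (p : V × V) : V :=
  if p.2.2 ≠ p.1.2 then (p.2.1 - 1, p.2.2) else if p.2.1 = p.1.1 + 1 then p.2
    else (p.2.1 - 2, p.2.2)

/-- the hexagon behind the exit from `R k` -/
noncomputable def hx (a : V) (ω : Finset (Sym2 V)) (k : ℤ) : V := crn (ex a ω k)

/-- flat boundary near `a`: row zero -/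
def Flat (K : ℕ) (D : Finset V) : Prop :=
  ∀ v : V, |v.1| ≤ 6 * K + 20 → v.2 ≤ 3 * K + 10 → (v ∈ D ↔ 0 ≤ v.2)

def Set0 (K : ℕ) (D : Finset V) (a b : V) : Prop :=
  Flat K D ∧ a.2 = 0 ∧ (a.1 = 0 ∨ a.1 = 1) ∧ b ∈ D ∧ ¬ (|b.1| ≤ 6 * K + 20 ∧ b.2 ≤ 3 * K + 10)

/-! ### the pieces -/

/-- ABS: the abstract estimate -/
def ABS : Prop := ∀ (α : Type) [DecidableEq α] (Ω : Finset α) (w : α → ℝ) (ψ : α → ℂ) (m : ℕ)
  (place : ℕ → α → Prop) (B : ℕ → α → Prop) (fl md : ℕ → α → α) (C : ℝ) (z : ℂ) (t : ℝ),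
  0 < t → ‖z‖ = 1 → 1 ≤ C → (∀ ω ∈ Ω, 0 ≤ w ω ∧ ‖ψ ω‖ ≤ w ω) →
  (∀ k < m, ∀ ω ∈ Ω, place k ω →
    fl k ω ∈ Ω ∧ place k (fl k ω) ∧ (B k (fl k ω) ↔ ¬ B k ω) ∧ fl k (fl k ω) = ω ∧
    (∀ i < k, (place i (fl k ω) ↔ place i ω) ∧ (B i (fl k ω) ↔ B i ω)) ∧
    (¬ B k ω → ψ (fl k ω) = (t : ℂ) * z * ψ ω)) →
  (∀ k < m, ∀ ω ∈ Ω, md k ω ∈ Ω ∧ place k (md k ω) ∧ (∀ i < k, (place i (md k ω) ↔ place i ω)) ∧
    w ω ≤ C * w (md k ω)) →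
  (∀ k < m, ∀ ω' ∈ Ω, (Ω.filter (fun ω => md k ω = ω')).card ≤ 64) →
  ‖∑ ω ∈ Ω, ψ ω‖ ≤ (1 - (1 - ‖(1 + (t : ℂ) * z) / (1 + (t : ℂ))‖) / (64 * C)) ^ m * ∑ ω ∈ Ω, w ω

/-- PN: the norm -/
def PN : Prop := ∀ (t θ : ℝ), 0 < t →
  t / (1 + t) ^ 2 * Real.sin θ ^ 2 ≤
    1 - ‖(1 + (t : ℂ) * Complex.exp (2 * θ * Complex.I)) / (1 + (t : ℂ))‖

/-- EX: existence of the exit -/
def EX : Prop := ∀ (D : Finset V) (a b : V) (ω : Finset (Sym2 V)) (k : ℤ),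
  IsCfg D a b ω → a ∈ R k → b ∉ R k → Exit a ω k (ex a ω k)

/-- INV: the exit depends only on the edges touching `R k` -/
def INV : Prop := ∀ (a : V) (ω ω' : Finset (Sym2 V)) (k : ℤ), a ∈ R k →
  (∀ e, (∃ v ∈ e, v ∈ R k) → (e ∈ ω ↔ e ∈ ω')) → ex a ω k = ex a ω' k ∧ hx a ω k = hx a ω' k

/-- LP: the number of loops changes by at most twice the number of changed edges -/
def LP : Prop := ∀ (a : V) (ω S : Finset (Sym2 V)),
  loops a (symmDiff ω S) ≤ loops a ω + 2 * S.card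

/-- FLP: a flip of type A into type B -/
def FLP : Prop := ∀ (a : V) (ω : Finset (Sym2 V)) (c : V) (i : ℕ), i < 6 → Even (c.1 + c.2) →
  (∀ e ∈ ω, ∃ p q, e = s(p, q) ∧ Nbr p q) → TyA c i ω →
  a ≠ cor c (i + 1) → a ≠ cor c (i + 3) → a ≠ cor c (i + 4) → a ≠ cor c (i + 5) →
  deg ω (cor c (i + 1)) = 2 → deg ω (cor c (i + 3)) = 0 → deg ω (cor c (i + 4)) = 0 →
  deg ω (cor c (i + 5)) = 0 →
  TyB c i (symmDiff ω (hex c)) ∧ (symmDiff ω (hex c)).card = ω.card + 2 ∧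
  loops a (symmDiff ω (hex c)) = loops a ω ∧
  (Conn ω a (cor c i) → len a (symmDiff ω (hex c)) = len a ω + 2 ∧
    Conn (symmDiff ω (hex c)) a (cor c i))

/-- RCH: reachability under a flip -/
def RCH : Prop := ∀ (ω : Finset (Sym2 V)) (c : V) (i : ℕ), i < 6 → Even (c.1 + c.2) →
  (∀ e ∈ ω, ∃ p q, e = s(p, q) ∧ Nbr p q) → TyA c i ω →
  deg ω (cor c (i + 1)) = 2 → deg ω (cor c (i + 3)) = 0 → deg ω (cor c (i + 4)) = 0 →
  deg ω (cor c (i + 5)) = 0 →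
  (∀ u v : V, (u ≠ cor c (i + 1) ∧ u ≠ cor c (i + 3) ∧ u ≠ cor c (i + 4) ∧ u ≠ cor c (i + 5)) →
    (v ≠ cor c (i + 1) ∧ v ≠ cor c (i + 3) ∧ v ≠ cor c (i + 4) ∧ v ≠ cor c (i + 5)) →
    (Conn ω u v ↔ Conn (symmDiff ω (hex c)) u v)) ∧
  Conn ω (cor c i) (cor c (i + 1)) ∧ Conn ω (cor c i) (cor c (i + 2)) ∧
  (∀ v, Conn ω (cor c (i + 3)) v → v = cor c (i + 3)) ∧
  (∀ v, Conn ω (cor c (i + 4)) v → v = cor c (i + 4)) ∧
  (∀ v, Conn ω (cor c (i + 5)) v → v = cor c (i + 5)) ∧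
  (∀ v, Conn (symmDiff ω (hex c)) (cor c (i + 1)) v → v = cor c (i + 1)) ∧
  Conn (symmDiff ω (hex c)) (cor c i) (cor c (i + 3)) ∧
  Conn (symmDiff ω (hex c)) (cor c i) (cor c (i + 4)) ∧
  Conn (symmDiff ω (hex c)) (cor c i) (cor c (i + 5))

/-- CF: symmetric difference with a hexagon of `D` keeps the configurations -/
def CF : Prop := ∀ (D : Finset V) (a b : V) (ω : Finset (Sym2 V)) (c : V), IsCfg D a b ω →
  Even (c.1 + c.2) → (∀ i < 6, cor c i ∈ D ∧ cor c i ≠ a ∧ cor c i ≠ b) →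
  IsCfg D a b (symmDiff ω (hex c))

/-- symmetric difference of several hexagons -/
noncomputable def xs (T : Finset V) : Finset (Sym2 V) := T.fold symmDiff ∅ hex

/-- the six hexagons around the one at `c` -/
def around (c : V) : Finset V := {c + (2, 0), c + (-2, 0), c + (1, 1), c + (-1, 1), c + (1, -1),
  c + (-1, -1)}

/-- XS: elementary properties of `xs` -/
def XS : Prop := ∀ (T : Finset V), (∀ e ∈ xs T, ∃ c ∈ T, e ∈ hex c) ∧ (xs T).card ≤ 6 * T.card ∧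
  ∀ (D : Finset V) (a b : V) (ω : Finset (Sym2 V)), IsCfg D a b ω →
    (∀ c ∈ T, Even (c.1 + c.2) ∧ ∀ i < 6, cor c i ∈ D ∧ cor c i ≠ a ∧ cor c i ≠ b) →
    IsCfg D a b (symmDiff ω (xs T))

/-- GEO: geometry of the exit -/
def GEO : Prop := ∀ (K : ℕ) (D : Finset V) (a b : V) (ω : Finset (Sym2 V)) (k : ℤ),
  Set0 K D a b → IsCfg D a b ω → 1 ≤ k → k ≤ 3 * K → Exit a ω k (ex a ω k) →
  Even ((hx a ω k).1 + (hx a ω k).2) ∧
  (∀ i < 6, cor (hx a ω k) i ∈ D ∧ cor (hx a ω k) i ∉ R k ∧ cor (hx a ω k) i ∈ R (k + 3) ∧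
    cor (hx a ω k) i ≠ a ∧ cor (hx a ω k) i ≠ b) ∧
  (∃ j < 6, (ex a ω k).2 = cor (hx a ω k) j) ∧
  (∀ j < 6, (ex a ω k).1 ≠ cor (hx a ω k) j) ∧ Conn ω a (ex a ω k).1 ∧ Conn ω a (ex a ω k).2

/-- TG: the modification -/
def TG : Prop := ∀ (K : ℕ) (D : Finset V) (a b : V) (ω : Finset (Sym2 V)) (k : ℤ),
  Set0 K D a b → IsCfg D a b ω → 1 ≤ k → k ≤ 3 * K → Exit a ω k (ex a ω k) →
  ∃ T ⊆ around (hx a ω k), (∀ c ∈ T, Even (c.1 + c.2) ∧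
      ∀ i < 6, cor c i ∈ D ∧ cor c i ∉ R k ∧ cor c i ∈ R (k + 3) ∧ cor c i ≠ a ∧ cor c i ≠ b) ∧
    Flip (hx a ω k) (symmDiff ω (xs T))

/-- DG: degrees at an arc of type A, and the end of the arc where the path enters -/
def DG : Prop := ∀ (D : Finset V) (a b : V) (ω : Finset (Sym2 V)) (c : V) (i : ℕ),
  IsCfg D a b ω → i < 6 → Even (c.1 + c.2) → (∀ j < 6, cor c j ≠ a ∧ cor c j ≠ b) → TyA c i ω →
  deg ω (cor c (i + 1)) = 2 ∧ deg ω (cor c (i + 3)) = 0 ∧ deg ω (cor c (i + 4)) = 0 ∧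
  deg ω (cor c (i + 5)) = 0 ∧
  ∀ u s : V, s(u, s) ∈ ω → (∀ j < 6, u ≠ cor c j) → (∃ j < 6, s = cor c j) → Conn ω a s →
    Conn ω a (cor c i)

/-- WT: comparison of weights -/
def WT : Prop := ∀ (n x : ℝ), 0 < n → 0 < x → ∃ C : ℝ, 1 ≤ C ∧
  ∀ (a : V) (ω S : Finset (Sym2 V)), S.card ≤ 36 → wt n x a ω ≤ C * wt n x a (symmDiff ω S)

/-- local changes: `F` does not see the flips of arcs of the path -/
def Inv (D : Finset V) (a b : V) (F : Finset (Sym2 V) → ℂ) : Prop :=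
  ∀ ω, IsCfg D a b ω → ∀ c : V, Even (c.1 + c.2) → Flip c ω → F (symmDiff ω (hex c)) = F ω

/-- the finite set of configurations -/
noncomputable def Cfg (D : Finset V) (a b : V) : Finset (Finset (Sym2 V)) := by
  classical exact (((D ×ˢ D).image (fun p => s(p.1, p.2))).powerset).filter (IsCfg D a b)

/-- CFG: membership -/
def CFG : Prop := ∀ (D : Finset V) (a b : V) (ω : Finset (Sym2 V)), ω ∈ Cfg D a b ↔ IsCfg D a b ω

/-- FL: the flip at the place of scale `k` -/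
def FL : Prop := ∀ (n x : ℝ) (K : ℕ) (D : Finset V) (a b : V) (ω : Finset (Sym2 V)) (k : ℤ),
  0 < n → 0 < x → Set0 K D a b → IsCfg D a b ω → 1 ≤ k → k ≤ 3 * K → Flip (hx a ω k) ω →
  let ω' := symmDiff ω (hex (hx a ω k))
  IsCfg D a b ω' ∧ hx a ω' k = hx a ω k ∧ Flip (hx a ω k) ω' ∧ symmDiff ω' (hex (hx a ω k)) = ω ∧
  (∀ e ∈ hex (hx a ω k), ∀ v ∈ e, v ∉ R k) ∧
  ((∃ i < 6, TyB (hx a ω k) i ω') ↔ ¬ ∃ i < 6, TyB (hx a ω k) i ω) ∧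
  ((¬ ∃ i < 6, TyB (hx a ω k) i ω) →
    wt n x a ω' = x ^ 2 * wt n x a ω ∧ len a ω' = len a ω + 2)

/-- SC: places of smaller scale do not see changes outside `R k` -/
def SC : Prop := ∀ (K : ℕ) (D : Finset V) (a b : V) (ω S : Finset (Sym2 V)) (j k : ℤ),
  Set0 K D a b → IsCfg D a b ω → 1 ≤ j → j + 3 ≤ k → k ≤ 3 * K →
  (∀ e ∈ S, ∀ v ∈ e, v ∉ R k) → IsCfg D a b (symmDiff ω S) →
  hx a (symmDiff ω S) j = hx a ω j ∧
  ∀ i, (TyA (hx a ω j) i (symmDiff ω S) ↔ TyA (hx a ω j) i ω) ∧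
    (TyB (hx a ω j) i (symmDiff ω S) ↔ TyB (hx a ω j) i ω)

/-- the main estimate -/
def MAIN : Prop := ∀ n x : ℝ, 0 < n → 0 < x → ∃ c : ℝ, 0 < c ∧ c ≤ 1 ∧
  ∀ (K : ℕ) (D : Finset V) (a b : V), Set0 K D a b → ∀ F : Finset (Sym2 V) → ℂ,
    (∀ ω, ‖F ω‖ ≤ 1) → Inv D a b F → ∀ θ : ℝ,
    ‖∑ ω ∈ Cfg D a b, (wt n x a ω : ℂ) * F ω * Complex.exp (θ * len a ω * Complex.I)‖ ≤
      (1 - c * Real.sin θ ^ 2) ^ K * ∑ ω ∈ Cfg D a b, wt n x a ω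

/-- FOU: from the main estimate to the law of the length -/
def FOU : Prop := ∀ (r : ℕ) (c : ℝ), 0 < c → c ≤ 1 → ∃ C : ℝ,
  ∀ (α : Type) (Ω : Finset α) (g : α → ℂ) (l : α → ℕ) (Z : ℝ) (K : ℕ), 0 ≤ Z → 1 ≤ K →
  (∀ θ : ℝ, ‖∑ ω ∈ Ω, g ω * Complex.exp (θ * l ω * Complex.I)‖ ≤
    (1 - c * Real.sin θ ^ 2) ^ K * Z) →
  ∀ j : ℤ, ‖∑ i ∈ Finset.range (r + 1), (-1 : ℂ) ^ i * (r.choose i : ℂ) *
      ∑ ω ∈ Ω, (if (l ω : ℤ) = j + 2 * i then g ω else 0)‖ ≤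
    C * (K : ℝ) ^ (-((r : ℝ) + 1) / 2) * Z

/-- outer neighbour of corner `i` -/
def outv (c : V) (i : ℕ) : V :=
  match i % 6 with
  | 0 => (c.1 - 1, c.2)
  | 1 => (c.1 + 1, c.2 - 1)
  | 2 => (c.1 + 3, c.2)
  | 3 => (c.1 + 3, c.2 + 1)
  | 4 => (c.1 + 1, c.2 + 2)
  | _ => (c.1 - 1, c.2 + 1)

/-- outer edge at corner `i` -/
def out (c : V) (i : ℕ) : Sym2 V := s(outv c i, cor c i)

/-- the hexagon between the outer edges `i` and `i + 1` -/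
def nb (c : V) (i : ℕ) : V :=
  match i % 6 with
  | 0 => c + (-1, -1)
  | 1 => c + (1, -1)
  | 2 => c + (2, 0)
  | 3 => c + (1, 1)
  | 4 => c + (-1, 1)
  | _ => c + (-2, 0)

/-- HA: exactly the outer edges `i` and `i + 2` give an arc of two or four sides -/
def HA : Prop := ∀ (D : Finset V) (a b : V) (ω : Finset (Sym2 V)) (c : V) (i : ℕ),
  IsCfg D a b ω → i < 6 → Even (c.1 + c.2) → (∀ j < 6, cor c j ≠ a ∧ cor c j ≠ b) →
  (∀ j < 6, (out c j ∈ ω ↔ j = i ∨ j = (i + 2) % 6)) → TyA c i ω ∨ TyB c i ω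

/-- HP: the number of outer edges is even -/
def HP : Prop := ∀ (D : Finset V) (a b : V) (ω : Finset (Sym2 V)) (c : V),
  IsCfg D a b ω → Even (c.1 + c.2) → (∀ j < 6, cor c j ≠ a ∧ cor c j ≠ b) →
  Even (Set.ncard {j : ℕ | j < 6 ∧ out c j ∈ ω})

/-- HT: the hexagon `nb c i` contains exactly the outer edges `i` and `i + 1` -/
def HT : Prop := ∀ (c : V) (i j : ℕ), i < 6 → j < 6 → Even (c.1 + c.2) →
  (out c j ∈ hex (nb c i) ↔ j = i ∨ j = (i + 1) % 6)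

/-- HE: the exit edge is the outer edge 1, 0 or 2 of the hexagon -/
def HE : Prop := ∀ (K : ℕ) (D : Finset V) (a b : V) (ω : Finset (Sym2 V)) (k : ℤ),
  Set0 K D a b → IsCfg D a b ω → 1 ≤ k → k ≤ 3 * K → Exit a ω k (ex a ω k) →
  let c := hx a ω k
  (out c 1 ∈ ω ∧ ∀ c' ∈ ({nb c 2, nb c 3, nb c 4, nb c 5} : Finset V), Even (c'.1 + c'.2) ∧
      ∀ i < 6, cor c' i ∈ D ∧ cor c' i ∉ R k ∧ cor c' i ∈ R (k + 3) ∧ cor c' i ≠ a ∧ cor c' i ≠ b) ∨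
  (out c 0 ∈ ω ∧ (∀ c' ∈ ({nb c 2, nb c 3, nb c 4} : Finset V), Even (c'.1 + c'.2) ∧
      ∀ i < 6, cor c' i ∈ D ∧ cor c' i ∉ R k ∧ cor c' i ∈ R (k + 3) ∧ cor c' i ≠ a ∧ cor c' i ≠ b) ∧
    (out c 1 ∉ ω ∨ (Even ((nb c 1).1 + (nb c 1).2) ∧ ∀ i < 6, cor (nb c 1) i ∈ D ∧
      cor (nb c 1) i ∉ R k ∧ cor (nb c 1) i ∈ R (k + 3) ∧ cor (nb c 1) i ≠ a ∧
      cor (nb c 1) i ≠ b))) ∨
  (out c 2 ∈ ω ∧ (∀ c' ∈ ({nb c 3, nb c 4, nb c 5} : Finset V), Even (c'.1 + c'.2) ∧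
      ∀ i < 6, cor c' i ∈ D ∧ cor c' i ∉ R k ∧ cor c' i ∈ R (k + 3) ∧ cor c' i ≠ a ∧ cor c' i ≠ b) ∧
    (out c 1 ∉ ω ∨ (Even ((nb c 0).1 + (nb c 0).2) ∧ ∀ i < 6, cor (nb c 0) i ∈ D ∧
      cor (nb c 0) i ∉ R k ∧ cor (nb c 0) i ∈ R (k + 3) ∧ cor (nb c 0) i ≠ a ∧
      cor (nb c 0) i ≠ b)))

end Pool.Agent.K1H73.ON
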